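import Pool.Agent.H9.FC.PS

/-! Targets about the forcing notion. -/

namespace Pool.Agent.H9.FC

open Set

/-- the parameters exist -/
def T_PAR : Prop := Nonempty Par

/-- `Big` is monotone -/
def T_BGM : Prop := ∀ (p : Par) (m n d : ℕ) (T T' : Set (List ℕ)), T ⊆ T' → Big p m n d T →
  Big p m n d T'

/-- pigeonhole -/
def T_PIG : Prop := ∀ (p : Par) (m n d : ℕ) (T : Set (List ℕ)) (f : List ℕ → ℕ → Finset ℕ),
  (∀ u i, f u i ⊆ Finset.range (p.a i)) → Big p (m + 1) n d T →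
  ∃ T' : Finset (List ℕ), (↑T' : Set (List ℕ)) ⊆ T ∧ Big p m n d (↑T' : Set (List ℕ)) ∧
    T'.card ≤ ∏ k ∈ Finset.Ico n (n + d), p.e m k ∧
    ∀ i, (T'.image (fun u => f u i)).card ≤ ∏ k ∈ Finset.Ico n (min i (n + d)), p.e m k

/-- restriction of trees to a smaller interval -/
def T_RSB : Prop := ∀ (p : Par) (m n d i d' : ℕ) (T : Set (List ℕ)), n ≤ i → i + d' ≤ n + d →
  Big p m n d T → Big p m i d' {r | ∃ u ∈ T, (u.drop (i - n)).take d' = r}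

/-- lists in a box -/
def T_BOX : Prop := ∀ (p : Par) (d n : ℕ) (u : List ℕ),
  u ∈ boxF p n d ↔ u.length = d ∧ ∀ j < d, u.getD j 0 < p.b (n + j)

/-- the sequences that meet `h` contain no big tree of level `0` -/
def T_NBM : Prop := ∀ (p : Par) (d n : ℕ) (h : ℕ → ℕ),
  ¬ Big p 0 n d (↑(meetF p n d h) : Set (List ℕ))

/-- the full box is big -/
def T_FUL : Prop := ∀ (p : Par) (m d n : ℕ), m ≤ n → Big p m n d (↑(boxF p n d) : Set (List ℕ))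

/-- diagonalization against countably many bounds -/
def T_DIA : Prop := ∀ (p : Par) (H : ℕ → ℕ → BVal), (∀ k, ∃ m, IsBound p m (H k)) →
  ∃ x : ℕ → ℕ, (∀ k, x k < p.b k) ∧ ∀ k, ¬ Rel x (H k)

/-- basic properties of the forcing notions -/
def T_BAS : Prop := ∀ (p : Par) (Ω : Type) [LinearOrder Ω] [WellFoundedLT Ω],
  (∀ γ γ' : Ω, γ ≤ γ' → PP p γ ⊆ PP p γ') ∧
  (∀ (γ : Ω) (U : Set (Pt Ω)), U ∈ PP p γ → ∀ x x' : Pt Ω, x ∈ U → (∀ δ < γ, x δ = x' δ) → x' ∈ U) ∧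
  (∀ (γ δ : Ω) (U : Set (Pt Ω)), U ∈ PP p δ → sat γ U ∈ PP p γ) ∧
  (∀ (γ : Ω) (U : Set (Pt Ω)), U ∈ PP p γ → U.Nonempty) ∧
  (∀ (γ δ : Ω) (U : Set (Pt Ω)) (s : List (Finset ℕ)) (φ : Pt Ω → ℕ → Finset ℕ),
    γ ≤ δ → U ∈ PP p δ → DepLt δ φ → sat γ (U ∩ atom δ s φ) = sat γ U)

/-- amalgamation -/
def T_AMA : Prop := ∀ (p : Par) (Ω : Type) [LinearOrder Ω] [WellFoundedLT Ω],
  (∀ (γ δ : Ω) (V W : Set (Pt Ω)), γ ≤ δ → V ∈ PP p γ → W ∈ PP p δ → V ⊆ sat γ W →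
    V ∩ W ∈ PP p δ) ∧
  (∀ (γ δ : Ω) (α : Type) (f : Pt Ω → α), γ ≤ δ → DepLt γ f → Dec (PP p γ) f → Dec (PP p δ) f)

/-- finitely many values can be decided -/
def T_DCF : Prop := ∀ (p : Par) (Ω : Type) [LinearOrder Ω] [WellFoundedLT Ω] (γ : Ω) (α : Type)
  (f : Pt Ω → ℕ → α) (N : ℕ) (U : Set (Pt Ω)), (∀ i, Dec (PP p γ) (fun x => f x i)) → U ∈ PP p γ →
  ∃ V ∈ PP p γ, V ⊆ U ∧ ∀ i < N, ∃ c, ∀ x ∈ V, f x i = c

/-- a condition can be extended so that its coordinate `γ` is given by a long stem -/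
def T_EXT : Prop := ∀ (p : Par) (Ω : Type) [LinearOrder Ω] [WellFoundedLT Ω] (γ δ : Ω) (N : ℕ)
  (U : Set (Pt Ω)), γ < δ → U ∈ PP p δ →
  ∃ V ∈ PP p γ, ∃ s l φ, StemOK p s ∧ l + 3 ≤ s.length ∧ N ≤ s.length ∧
    IsName p (PP p γ) γ l φ ∧ V ⊆ sat γ U ∧
    ∀ V' ∈ PP p γ, ∀ s' l' φ', StemOK p s' → l' + 2 ≤ s'.length → IsName p (PP p γ) γ l' φ' →
      V' ∩ atom γ s' φ' ⊆ V ∩ atom γ s φ → (V' ∩ atom γ s' φ') ∩ U ∈ PP p δ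

/-- every condition is decided densely -/
def T_DIC : Prop := ∀ (p : Par) (Ω : Type) [LinearOrder Ω] [WellFoundedLT Ω] (γ : Ω)
  (U W : Set (Pt Ω)), U ∈ PP p γ → W ∈ PP p γ →
  ∃ V ∈ PP p γ, V ⊆ U ∧ (V ⊆ W ∨ Disjoint V W)

/-- in an uncountable family of finite partial functions with countably many values, two agree on
the common domain -/
def T_DEL : Prop := ∀ (Ω κ I : Type) [Countable κ] [Uncountable I] (f : I → Finset Ω)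
  (g : I → Ω → κ), ∃ i j, i ≠ j ∧ ∀ x ∈ f i, x ∈ f j → g i x = g j x

/-- the countable chain condition -/
def T_CCC : Prop := ∀ (p : Par) (Ω : Type) [LinearOrder Ω] [WellFoundedLT Ω] (γ : Ω)
  (A : Set (Set (Pt Ω))), A ⊆ PP p γ →
  (∀ U ∈ A, ∀ V ∈ A, U ≠ V → ¬ Comp (PP p γ) U V) → A.Countable

/-- construction of names by dense choices -/
def T_NAM : Prop := ∀ (p : Par) (Ω : Type) [LinearOrder Ω] [WellFoundedLT Ω] (γ : Ω) (Y : Type)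
  (y₀ : Y) (Φ : List Y → Set (Pt Ω) → Prop) (V₀ : Set (Pt Ω)), V₀ ∈ PP p γ → Φ [] V₀ →
  (∀ F V V', V' ∈ PP p γ → V' ⊆ V → Φ F V → Φ F V') →
  (∀ F V, V ∈ PP p γ → V ⊆ V₀ → Φ F V → ∃ V' ∈ PP p γ, V' ⊆ V ∧ ∃ c, Φ (F ++ [c]) V') →
  ∃ f : Pt Ω → ℕ → Y, DepLt γ f ∧ (∀ i, Dec (PP p γ) (fun x => f x i)) ∧
    (∀ x i, f x i = y₀ ∨ ∃ F V, F.length = i ∧ V ∈ PP p γ ∧ Φ (F ++ [f x i]) V) ∧
    ∀ F V, V ∈ PP p γ → V ⊆ V₀ → (∀ x ∈ V, (List.range F.length).map (f x) = F) →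
      ∃ V' ∈ PP p γ, V' ⊆ V ∧ Φ F V'

/-- if the cofinality is uncountable, names for reals are bounded -/
def T_BND : Prop := ∀ (p : Par) (Ω : Type) [LinearOrder Ω] [WellFoundedLT Ω] (γ : Ω),
  (∀ A : Set Ω, A.Countable → (∀ δ ∈ A, δ < γ) → ∃ β < γ, ∀ δ ∈ A, δ < β) →
  ∀ (Y : Type) (y₀ : Y) (D : ℕ → Y → Set (Pt Ω) → Prop),
  (∀ n c V V', V' ∈ PP p γ → V' ⊆ V → D n c V → D n c V') →
  (∀ n, ∀ V ∈ PP p γ, ∃ V' ∈ PP p γ, V' ⊆ V ∧ ∃ c, D n c V') →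
  ∃ β < γ, ∃ f : Pt Ω → ℕ → Y, DepLt β f ∧ (∀ n, Dec (PP p β) (fun x => f x n)) ∧
    (∀ x n, f x n = y₀ ∨ ∃ V ∈ PP p γ, D n (f x n) V) ∧
    ∀ n c, ∀ V ∈ PP p γ, (∀ x ∈ V, f x n = c) → ∃ V' ∈ PP p γ, V' ⊆ V ∧ D n c V'

/-- no condition `V' ∩ atom γ s φ`, `V' ⊆ V`, `φ` of width `w (l+1)`, forces that the interval of
`y n` is not contained in `[n, n+d)` -/
def KK (p : Par) {Ω : Type} [LinearOrder Ω] [WellFoundedLT Ω] (β γ : Ω) (y : Pt Ω → ℕ → BVal)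
    (s : List (Finset ℕ)) (l n d : ℕ) (V : Set (Pt Ω)) : Prop :=
  ∀ V' ∈ PP p γ, V' ⊆ V → ∀ φ, IsName p (PP p γ) γ (l + 1) φ →
    ∃ R ∈ PP p β, R ⊆ V' ∩ atom γ s φ ∧ ∃ c : BVal, (∀ t ∈ R, y t n = c) ∧ c.1 + c.2.1 ≤ n + d

/-- for some name `φ` of width `w l` the condition `V ∩ atom γ s φ` forces that, if the interval of
`y n` is contained in `[n, n+d)`, then the restriction of `u` to it belongs to `y n` -/
def LL (p : Par) {Ω : Type} [LinearOrder Ω] [WellFoundedLT Ω] (β γ : Ω) (y : Pt Ω → ℕ → BVal)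
    (s : List (Finset ℕ)) (l n d : ℕ) (V : Set (Pt Ω)) (u : List ℕ) : Prop :=
  ∃ φ, IsName p (PP p γ) γ l φ ∧ ∀ R ∈ PP p β, R ⊆ V ∩ atom γ s φ → ∀ c : BVal,
    (∀ t ∈ R, y t n = c) → c.1 + c.2.1 ≤ n + d → (u.drop (c.1 - n)).take c.2.1 ∈ c.2.2

/-- boundedness by compactness -/
def T_CLA : Prop := ∀ (p : Par) (Ω : Type) [LinearOrder Ω] [WellFoundedLT Ω] (β γ : Ω) (m : ℕ)
  (y : Pt Ω → ℕ → BVal) (s : List (Finset ℕ)) (l n : ℕ), γ < β → IsBName p β m y → StemOK p s →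
  l + 3 ≤ s.length → ∀ V ∈ PP p γ, ∃ V' ∈ PP p γ, V' ⊆ V ∧ ∃ d, KK p β γ y s l n d V'

/-- smallness of the set of possible restrictions -/
def T_CLB : Prop := ∀ (p : Par) (Ω : Type) [LinearOrder Ω] [WellFoundedLT Ω] (β γ : Ω) (m : ℕ)
  (y : Pt Ω → ℕ → BVal) (s : List (Finset ℕ)) (l n d : ℕ), γ < β → IsBName p β m y → StemOK p s →
  l + 3 ≤ s.length → m ≤ n → ∀ V ∈ PP p γ, KK p β γ y s l n d V →
  ∀ S : Finset (List ℕ), S ⊆ boxF p n d → (∀ u ∈ S, LL p β γ y s l n d V u) →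
    ¬ Big p (m + 1) n d (↑S : Set (List ℕ))

/-- one step down -/
def T_STP : Prop := ∀ (p : Par) (Ω : Type) [LinearOrder Ω] [WellFoundedLT Ω] (β γ : Ω) (m : ℕ)
  (y : Pt Ω → ℕ → BVal) (s : List (Finset ℕ)) (l : ℕ), γ < β → IsBName p β m y → StemOK p s →
  l + 3 ≤ s.length → ∃ y', IsBName p γ (m + 1) y' ∧ ∀ (φ : Pt Ω → ℕ → Finset ℕ) (V : Set (Pt Ω))
    (x : ℕ → ℕ) (n₀ : ℕ), IsName p (PP p γ) γ l φ → V ∈ PP p γ → (∀ k, x k < p.b k) →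
    Fo p β (V ∩ atom γ s φ) x y n₀ → Fo p γ V x y' n₀

/-- preservation: for every name of a bound there are countably many ground model bounds -/
def T_PRE : Prop := ∀ (p : Par) (Ω : Type) [LinearOrder Ω] [WellFoundedLT Ω] (γ : Ω) (m : ℕ)
  (y : Pt Ω → ℕ → BVal), IsBName p γ m y → ∃ H : ℕ → ℕ → BVal, (∀ k, ∃ m', IsBound p m' (H k)) ∧
    ∀ x : ℕ → ℕ, (∀ k, x k < p.b k) → ∀ U ∈ PP p γ, ∀ n₀, Fo p γ U x y n₀ → ∃ k, Rel x (H k)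

/-- names of reals for `P_β` are captured at `β` -/
def T_CAP : Prop := ∀ (p : Par) (Ω : Type) [LinearOrder Ω] [WellFoundedLT Ω] (β γ : Ω)
  (z : Pt Ω → ℕ → ℕ), β < γ → DepLt β z → (∀ i, Dec (PP p β) (fun x => z x i)) →
  (∀ x i, z x i < p.a i) → ∀ U ∈ PP p γ, ∃ V ∈ PP p γ, V ⊆ U ∧ ∃ i₀, ∀ i ≥ i₀, ∀ x ∈ V,
    z x i ∈ x β i

/-- the generic slalom is decided by stems -/
def T_STM : Prop := ∀ (p : Par) (Ω : Type) [LinearOrder Ω] [WellFoundedLT Ω] (β γ : Ω) (N : ℕ),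
  β < γ → ∀ U ∈ PP p γ, ∃ V ∈ PP p γ, V ⊆ U ∧ ∃ s, StemOK p s ∧ N ≤ s.length ∧
    ∀ x ∈ V, ∀ i < s.length, x β i = s.getD i ∅

/-- a suitable well-order exists -/
def T_OMG : Prop := ∃ (Ω : Type) (_ : LinearOrder Ω) (_ : WellFoundedLT Ω) (_ : OrderTop Ω),
  ∀ (I : Type) (f : I → Ω), Cardinal.mk I ≤ Cardinal.continuum → (∀ i, f i < ⊤) →
    ∃ β < (⊤ : Ω), ∀ i, f i < β

end Pool.Agent.H9.FC
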