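import Mathlib

/-! The complete Boolean algebra of regular open subsets of a preorder. -/

namespace Pool.Agent.H9.FC

variable {P : Type*} [Preorder P]

/-- `D` is regular open: `p` belongs to `D` iff `D` is dense below `p` -/
def IsRO (D : Set P) : Prop := ∀ p, p ∈ D ↔ ∀ q ≤ p, ∃ r ≤ q, r ∈ D

/-- regular open subsets of a preorder -/
def RO (P : Type*) [Preorder P] := {D : Set P // IsRO D}

/-- the regular open hull of a set -/
def rhull (D : Set P) : Set P := {p | ∀ q ≤ p, ∃ r ≤ q, ∃ s ∈ D, r ≤ s}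

theorem IsRO.lower {D : Set P} (h : IsRO D) {p q : P} (hp : p ∈ D) (hq : q ≤ p) : q ∈ D :=
  (h q).2 (fun r hr => (h p).1 hp r (hr.trans hq))

theorem isRO_rhull (D : Set P) : IsRO (rhull D) := by
  intro p
  constructor
  · intro hp q hq
    obtain ⟨r, hr, s, hs, hrs⟩ := hp q hq
    exact ⟨r, hr, fun q' hq' => ⟨q', le_refl _, s, hs, hq'.trans hrs⟩⟩
  · intro h q hq
    obtain ⟨r, hr, hr'⟩ := h q hq
    obtain ⟨r', hr1, s, hs, hrs⟩ := hr' r le_rfl
    exact ⟨r', hr1.trans hr, s, hs, hrs⟩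

theorem subset_rhull (D : Set P) : D ⊆ rhull D := fun p hp q hq => ⟨q, le_rfl, p, hp, hq⟩

theorem rhull_subset {D E : Set P} (hE : IsRO E) (h : D ⊆ E) : rhull D ⊆ E := by
  intro p hp
  refine (hE p).2 (fun q hq => ?_)
  obtain ⟨r, hr, s, hs, hrs⟩ := hp q hq
  exact ⟨r, hr, hE.lower (h hs) hrs⟩

namespace RO

instance : LE (RO P) := ⟨fun a b => a.1 ⊆ b.1⟩

instance : PartialOrder (RO P) where
  le := (· ≤ ·)
  le_refl a := Set.Subset.refl a.1
  le_trans a b c h h' := Set.Subset.trans h h'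
  le_antisymm a b h h' := Subtype.ext (Set.Subset.antisymm h h')

theorem le_def {a b : RO P} : a ≤ b ↔ a.1 ⊆ b.1 := Iff.rfl

/-- the hull as an element -/
def hull (D : Set P) : RO P := ⟨rhull D, isRO_rhull D⟩

/-- intersection -/
def inf' (a b : RO P) : RO P := ⟨a.1 ∩ b.1, by
  intro p
  constructor
  · rintro ⟨h1, h2⟩ q hq
    exact ⟨q, le_rfl, a.2.lower h1 hq, b.2.lower h2 hq⟩
  · intro h
    refine ⟨(a.2 p).2 fun q hq => ?_, (b.2 p).2 fun q hq => ?_⟩
    · obtain ⟨r, hr, h1, _⟩ := h q hq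
      exact ⟨r, hr, h1⟩
    · obtain ⟨r, hr, _, h2⟩ := h q hq
      exact ⟨r, hr, h2⟩⟩

/-- complement -/
def compl' (a : RO P) : RO P := ⟨{p | ∀ q ≤ p, q ∉ a.1}, by
  intro p
  constructor
  · intro h q hq
    exact ⟨q, le_rfl, fun r hr => h r (hr.trans hq)⟩
  · intro h q hq hqa
    obtain ⟨r, hr, hr'⟩ := h q hq
    exact hr' r le_rfl (a.2.lower hqa hr)⟩

/-- intersection of a family -/
def sInf' (S : Set (RO P)) : RO P := ⟨{p | ∀ a ∈ S, p ∈ a.1}, by
  intro p
  constructor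
  · intro h q hq
    exact ⟨q, le_rfl, fun a ha => a.2.lower (h a ha) hq⟩
  · intro h a ha
    refine (a.2 p).2 fun q hq => ?_
    obtain ⟨r, hr, hr'⟩ := h q hq
    exact ⟨r, hr, hr' a ha⟩⟩

/-- join of a family -/
def sSup' (S : Set (RO P)) : RO P := hull {p | ∃ a ∈ S, p ∈ a.1}

theorem compl_compl' (a : RO P) : compl' (compl' a) = a := by
  apply Subtype.ext
  ext p
  constructor
  · intro h
    refine (a.2 p).2 fun q hq => ?_
    by_contra hcon
    push Not at hcon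
    exact h q hq (fun r hr => hcon r hr)
  · intro h q hq hq'
    exact hq' q le_rfl (a.2.lower h hq)

/-- the top element -/
def top' : RO P := ⟨Set.univ, fun _ => ⟨fun _ q _ => ⟨q, le_rfl, trivial⟩, fun _ => trivial⟩⟩

/-- the bottom element -/
def bot' : RO P := ⟨∅, fun p => ⟨fun h => h.elim, fun h => by
  obtain ⟨r, _, hr⟩ := h p le_rfl
  exact hr.elim⟩⟩

instance : Lattice (RO P) where
  sup a b := hull (a.1 ∪ b.1)
  inf := inf'
  le_sup_left a b := fun p hp => subset_rhull _ (Or.inl hp)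
  le_sup_right a b := fun p hp => subset_rhull _ (Or.inr hp)
  sup_le a b c h h' := rhull_subset c.2 (Set.union_subset h h')
  inf_le_left a b := Set.inter_subset_left
  inf_le_right a b := Set.inter_subset_right
  le_inf a b c h h' := Set.subset_inter h h'

theorem inf_coe (a b : RO P) : (a ⊓ b).1 = a.1 ∩ b.1 := rfl

instance : DistribLattice (RO P) :=
  { (inferInstance : Lattice (RO P)) with
    le_sup_inf := by
      intro a b c p hp
      have hp1 : p ∈ rhull (a.1 ∪ b.1) := hp.1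
      have hp2 : p ∈ rhull (a.1 ∪ c.1) := hp.2
      show p ∈ rhull (a.1 ∪ (b.1 ∩ c.1))
      intro q hq
      obtain ⟨r, hr, s, hs, hrs⟩ := hp1 q hq
      obtain ⟨r', hr', s', hs', hrs'⟩ := hp2 r (hr.trans hq)
      refine ⟨r', hr'.trans hr, r', ?_, le_rfl⟩
      rcases hs with hs | hs
      · exact Or.inl (a.2.lower hs (hr'.trans hrs))
      · rcases hs' with hs' | hs'
        · exact Or.inl (a.2.lower hs' hrs')
        · exact Or.inr ⟨b.2.lower hs (hr'.trans hrs), c.2.lower hs' hrs'⟩ }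

instance : BoundedOrder (RO P) where
  top := top'
  bot := bot'
  le_top a := Set.subset_univ _
  bot_le a := Set.empty_subset _

instance : BooleanAlgebra (RO P) :=
  { (inferInstance : DistribLattice (RO P)), (inferInstance : BoundedOrder (RO P)) with
    compl := compl'
    sdiff := fun a b => a ⊓ compl' b
    himp := fun a b => b ⊔ compl' a
    inf_compl_le_bot := by
      intro a p hp
      exact (hp.2 p le_rfl hp.1).elim
    top_le_sup_compl := by
      intro a p _ q hq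
      by_cases h : ∃ r ≤ q, r ∈ a.1
      · obtain ⟨r, hr, hra⟩ := h
        exact ⟨r, hr, r, Or.inl hra, le_rfl⟩
      · push Not at h
        exact ⟨q, le_rfl, q, Or.inr h, le_rfl⟩
    sdiff_eq := fun a b => rfl
    himp_eq := fun a b => rfl }

instance : CompleteBooleanAlgebra (RO P) :=
  { (inferInstance : BooleanAlgebra (RO P)) with
    sSup := sSup'
    sInf := sInf'
    isLUB_sSup := fun S => ⟨fun a ha p hp => subset_rhull _ ⟨a, ha, hp⟩,
      fun a h => rhull_subset a.2 (fun p ⟨b, hb, hp⟩ => h hb hp)⟩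
    isGLB_sInf := fun S => ⟨fun a ha p hp => hp a ha,
      fun a h p hp b hb => h hb hp⟩ }

theorem mem_inf {a b : RO P} {p : P} : p ∈ (a ⊓ b).1 ↔ p ∈ a.1 ∧ p ∈ b.1 := Iff.rfl

theorem mem_compl {a : RO P} {p : P} : p ∈ (aᶜ).1 ↔ ∀ q ≤ p, q ∉ a.1 := Iff.rfl

theorem mem_top {p : P} : p ∈ (⊤ : RO P).1 := trivial

theorem not_mem_bot {p : P} : p ∉ (⊥ : RO P).1 := fun h => h.elim

theorem mem_iSup {ι : Sort*} {f : ι → RO P} {p : P} :
    p ∈ (⨆ i, f i).1 ↔ ∀ q ≤ p, ∃ r ≤ q, ∃ i, r ∈ (f i).1 := by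
  constructor
  · intro h q hq
    obtain ⟨r, hr, s, ⟨a, ⟨i, rfl⟩, hs⟩, hrs⟩ := h q hq
    exact ⟨r, hr, i, (f i).2.lower hs hrs⟩
  · intro h q hq
    obtain ⟨r, hr, i, hri⟩ := h q hq
    exact ⟨r, hr, r, ⟨f i, ⟨i, rfl⟩, hri⟩, le_rfl⟩

theorem mem_iInf {ι : Sort*} {f : ι → RO P} {p : P} :
    p ∈ (⨅ i, f i).1 ↔ ∀ i, p ∈ (f i).1 := by
  constructor
  · intro h i
    exact h (f i) ⟨i, rfl⟩
  · rintro h a ⟨i, rfl⟩
    exact h i

theorem eq_bot_iff' {a : RO P} : a = ⊥ ↔ ∀ p, p ∉ a.1 := by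
  constructor
  · rintro rfl p hp
    exact hp.elim
  · intro h
    apply Subtype.ext
    ext p
    exact ⟨fun hp => (h p hp).elim, fun hp => hp.elim⟩

end RO

end Pool.Agent.H9.FC
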