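import Pool.Agent.H9.FC.GD

/-! Targets about Boolean valued sets and generic quotients. -/

namespace Pool.Agent.H9.FC

open Set BSet

/-- maximum principle -/
def T_MAX : Prop := ∀ (B : Type) [CompleteBooleanAlgebra B] (F : BSet B → B), BSet.Ext F →
  ∃ x, F x = ⨆ y, F y

/-- bounded quantifiers -/
def T_BQ : Prop := ∀ (B : Type) [CompleteBooleanAlgebra B] (F : BSet B → B) (y : BSet B),
  BSet.Ext F →
  ((⨆ x, bmem x y ⊓ F x) = ⨆ i, y.bval i ⊓ F (y.func i)) ∧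
  ((⨅ x, bmem x y ⇨ F x) = ⨅ i, y.bval i ⇨ F (y.func i))

/-- formulas are extensional and depend only on the variables below `bd` -/
def T_FE : Prop := ∀ (B : Type) [CompleteBooleanAlgebra B] (φ : Fml),
  (∀ (v : ℕ → BSet B) (i : ℕ), BSet.Ext (fun x => fv φ (Function.update v i x))) ∧
  (∀ (v v' : ℕ → BSet B), (∀ i < φ.bd, v i = v' i) → fv φ v = fv φ v')

/-- the derived connectives, for values and for satisfaction -/
def T_CON : Prop :=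
  (∀ (B : Type) [CompleteBooleanAlgebra B] (φ ψ : Fml) (i : ℕ) (v : ℕ → BSet B),
    fv (Fml.neg φ) v = (fv φ v)ᶜ ∧ fv (Fml.and φ ψ) v = fv φ v ⊓ fv ψ v ∧
    fv (Fml.or φ ψ) v = fv φ v ⊔ fv ψ v ∧
    fv (Fml.iff φ ψ) v = (fv φ v ⇨ fv ψ v) ⊓ (fv ψ v ⇨ fv φ v) ∧
    fv (Fml.ex i φ) v = ⨆ x, fv φ (Function.update v i x)) ∧
  (∀ (N : Type 1) (E : N → N → Prop) (φ ψ : Fml) (i : ℕ) (v : ℕ → N),
    (Sat E (Fml.neg φ) v ↔ ¬ Sat E φ v) ∧ (Sat E (Fml.and φ ψ) v ↔ Sat E φ v ∧ Sat E ψ v) ∧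
    (Sat E (Fml.or φ ψ) v ↔ Sat E φ v ∨ Sat E ψ v) ∧
    (Sat E (Fml.iff φ ψ) v ↔ (Sat E φ v ↔ Sat E ψ v)) ∧
    (Sat E (Fml.ex i φ) v ↔ ∃ x, Sat E φ (Function.update v i x)))

/-- Łoś -/
def T_LOS : Prop := ∀ (B : Type) [CompleteBooleanAlgebra B] (M : Gen B) (φ : Fml) (v : ℕ → M.X),
  Sat M.E φ (fun i => M.cl (v i)) ↔ fv φ (fun i => (v i).1) ∈ M.G

/-- transfer of existential statements: if the value of `χ` is below the join of the values of `ψ`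
and `χ` holds in the quotient then some `x` satisfies `ψ` in the quotient -/
def T_TRA : Prop := ∀ (B : Type) [CompleteBooleanAlgebra B] (M : Gen B) (χ ψ : Fml) (i : ℕ)
  (v : ℕ → M.X),
  fv χ (fun j => (v j).1) ≤ ⨆ x, fv ψ (Function.update (fun j => (v j).1) i x) →
  Sat M.E χ (fun j => M.cl (v j)) →
  ∃ x : M.X, Sat M.E ψ (Function.update (fun j => M.cl (v j)) i (M.cl x))

/-- extensionality, foundation, pairing, union in the quotient -/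
def T_AX1 : Prop := ∀ (B : Type) [CompleteBooleanAlgebra B] (M : Gen B),
  (∀ x y : M.N, (∀ z, M.E z x ↔ M.E z y) → x = y) ∧
  (∀ x : M.N, (∃ y, M.E y x) → ∃ y, M.E y x ∧ ∀ z, M.E z x → ¬ M.E z y)

/-- pairing, union -/
def T_AX2 : Prop := ∀ (B : Type) [CompleteBooleanAlgebra B] (M : Gen B),
  (∀ x y : M.N, ∃ z, ∀ t, M.E t z ↔ t = x ∨ t = y) ∧
  (∀ x : M.N, ∃ z, ∀ t, M.E t z ↔ ∃ y, M.E y x ∧ M.E t y)

/-- power set, infinity -/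
def T_AX3 : Prop := ∀ (B : Type) [CompleteBooleanAlgebra B] (M : Gen B),
  (∀ x : M.N, ∃ z, ∀ t, M.E t z ↔ ∀ s, M.E s t → M.E s x) ∧
  (∃ w : M.N, (∃ e, M.E e w ∧ ∀ t, ¬ M.E t e) ∧
    ∀ y, M.E y w → ∃ z, M.E z w ∧ ∀ t, M.E t z ↔ M.E t y ∨ t = y)

/-- separation, replacement -/
def T_AX4 : Prop := ∀ (B : Type) [CompleteBooleanAlgebra B] (M : Gen B),
  (∀ (φ : Fml) (v : ℕ → M.N) (a : M.N), ∃ z, ∀ t, M.E t z ↔
    M.E t a ∧ Sat M.E φ (Function.update v 0 t)) ∧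
  (∀ (φ : Fml) (v : ℕ → M.N) (a : M.N),
    (∀ x, M.E x a → ∃! y, Sat M.E φ (Function.update (Function.update v 0 x) 1 y)) →
    ∃ z, ∀ y, M.E y z ↔ ∃ x, M.E x a ∧
      Sat M.E φ (Function.update (Function.update v 0 x) 1 y))

/-- choice -/
def T_AX5 : Prop := ∀ (B : Type) [CompleteBooleanAlgebra B] (M : Gen B) (x : M.N),
  (∀ y, M.E y x → ∃ z, M.E z y) →
  (∀ y y', M.E y x → M.E y' x → (∃ z, M.E z y ∧ M.E z y') → y = y') →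
  ∃ c, ∀ y, M.E y x → ∃! z, M.E z y ∧ M.E z c

/-- closure of a countable set under countably many operations of finite arity -/
def T_CLO : Prop := ∀ (S : Type 1) (s₀ : S) (op : ℕ → (ℕ → S) → S) (ar : ℕ → ℕ),
  (∀ c v v', (∀ i < ar c, v i = v' i) → op c v = op c v') →
  ∃ X : Set S, X.Countable ∧ s₀ ∈ X ∧ ∀ c v, (∀ i, v i ∈ X) → op c v ∈ X

/-- Rasiowa–Sikorski -/
def T_RSG : Prop := ∀ (B : Type) [CompleteBooleanAlgebra B] [Nontrivial B] (J : ℕ → ℕ → B),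
  ∃ G : Set B, ⊤ ∈ G ∧ ⊥ ∉ G ∧ (∀ a c, a ∈ G → c ∈ G → a ⊓ c ∈ G) ∧
    (∀ a c, a ∈ G → a ≤ c → c ∈ G) ∧ (∀ a, a ∈ G ∨ aᶜ ∈ G) ∧
    ∀ k, (⨆ n, J k n) ∈ G → ∃ n, J k n ∈ G

/-- existence of generic quotients closed under given operations and preserving given joins -/
def T_EXG : Prop := ∀ (B : Type) [CompleteBooleanAlgebra B] [Nontrivial B]
  (op : ℕ → (ℕ → BSet B) → BSet B) (ar : ℕ → ℕ) (J : ℕ → (ℕ → BSet B) → ℕ → B) (jr : ℕ → ℕ),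
  (∀ c v v', (∀ i < ar c, v i = v' i) → op c v = op c v') →
  (∀ c v v', (∀ i < jr c, v i = v' i) → J c v = J c v') →
  ∃ M : Gen B, (∀ c v, (∀ i, v i ∈ M.X) → op c v ∈ M.X) ∧
    ∀ c v, (∀ i, v i ∈ M.X) → (⨆ n, J c v n) ∈ M.G → ∃ n, J c v n ∈ M.G

/-- values for pairs and numerals -/
def T_NUM : Prop := ∀ (B : Type) [CompleteBooleanAlgebra B],
  (∀ z x y : BSet B, bmem z (bup x y) = beq z x ⊔ beq z y) ∧
  (∀ z x : BSet B, bmem z (bsucc x) = bmem z x ⊔ beq z x) ∧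
  (∀ n m : ℕ, n ≠ m → beq (bnum n : BSet B) (bnum m) = ⊥) ∧
  (∀ x y x' y' : BSet B, beq (bop x y) (bop x' y') = beq x x' ⊓ beq y y') ∧
  (∀ n m n' m' : ℕ, (n, m) ≠ (n', m') → beq (bnp n m : BSet B) (bnp n' m') = ⊥) ∧
  (∀ z : BSet B, bmem z bomega = ⨆ n, beq z (bnum n)) ∧
  (∀ (r : ℕ → ℕ → B) (n m : ℕ), rv (bfn r) n m = r n m) ∧
  (∀ (r : ℕ → ℕ → B) (z : BSet B), bmem z (bfn r) = ⨆ q : ℕ × ℕ, r q.1 q.2 ⊓ beq z (bnp q.1 q.2)) ∧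
  (∀ (x : ℕ → ℕ) (z : BSet B), bmem z (bgr x) = ⨆ n, beq z (bnp n (x n)))

/-- `least` gives partitions -/
def T_LST : Prop := ∀ (B : Type) [CompleteBooleanAlgebra B] (c : ℕ → ℕ → B) (n : ℕ),
  IsPart (fun m => least c n m)

/-- numerals and pairs in the quotient -/
def T_QN : Prop := ∀ (B : Type) [CompleteBooleanAlgebra B] (M : Gen B)
  (hn : ∀ n, bnum n ∈ M.X) (hp : ∀ x y, x ∈ M.X → y ∈ M.X → bup x y ∈ M.X),
  (∀ (n : ℕ) (t : M.N), IsNum M.E n t ↔ t = M.cl ⟨bnum n, hn n⟩) ∧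
  (∀ (t : M.N) (x y : M.X), IsPair M.E t (M.cl x) (M.cl y) ↔
    t = M.cl ⟨bop x.1 y.1, hp _ _ (hp _ _ x.2 x.2) (hp _ _ x.2 y.2)⟩)

/-- codes of functions in the quotient -/
def T_QC : Prop := ∀ (B : Type) [CompleteBooleanAlgebra B] (M : Gen B)
  (_ : ∀ n, bnum n ∈ M.X) (_ : ∀ x y, x ∈ M.X → y ∈ M.X → bup x y ∈ M.X) (z : M.X) (f : ℕ → ℕ),
  (Codes M.E (M.cl z) f ↔ (∀ n m, rv z.1 n m ∈ M.G ↔ m = f n) ∧
    ∀ t : M.X, bmem t.1 z.1 ∈ M.G → ∃ n m, beq t.1 (bnp n m) ∈ M.G)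

end Pool.Agent.H9.FC
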