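import Pool.Agent.H9.FC.Stmt

/-! Boolean valued sets. -/

namespace Pool.Agent.H9.FC

/-- Boolean valued sets (names) -/
inductive BSet (B : Type) : Type 1
  | mk (α : Type) (A : α → BSet B) (b : α → B) : BSet B

namespace BSet

variable {B : Type}

/-- index type -/
def type : BSet B → Type
  | mk α _ _ => α

/-- the names of the elements -/
def func : (x : BSet B) → x.type → BSet B
  | mk _ A _ => A

/-- the Boolean values of the elements -/
def bval : (x : BSet B) → x.type → B
  | mk _ _ b => b

variable [CompleteBooleanAlgebra B]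

/-- Boolean value of equality -/
def beq : BSet B → BSet B → B
  | mk _ A a, mk _ C c =>
    (⨅ i, a i ⇨ ⨆ j, c j ⊓ beq (A i) (C j)) ⊓ (⨅ j, c j ⇨ ⨆ i, a i ⊓ beq (A i) (C j))

/-- Boolean value of membership -/
def bmem (x y : BSet B) : B := ⨆ j : y.type, y.bval j ⊓ beq x (y.func j)

theorem beq_def (x y : BSet B) : beq x y =
    (⨅ i : x.type, x.bval i ⇨ ⨆ j : y.type, y.bval j ⊓ beq (x.func i) (y.func j)) ⊓
    (⨅ j : y.type, y.bval j ⇨ ⨆ i : x.type, x.bval i ⊓ beq (x.func i) (y.func j)) := by
  cases x; cases y; rfl

theorem beq_refl (x : BSet B) : beq x x = ⊤ := by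
  induction x with
  | mk α A b ih =>
    rw [beq_def]
    refine top_le_iff.1 (le_inf (le_iInf fun i => ?_) (le_iInf fun i => ?_)) <;>
    · rw [le_himp_iff, top_inf_eq]
      exact le_iSup_of_le i (le_inf le_rfl (by rw [show beq ((mk α A b).func i) ((mk α A b).func i) = ⊤ from ih i]; exact le_top))

theorem beq_symm (x y : BSet B) : beq x y = beq y x := by
  induction x generalizing y with
  | mk α A a ih =>
    cases y with
    | mk β C c =>
      rw [beq_def, beq_def (mk β C c), inf_comm]
      congr 1
      · refine iInf_congr fun j => ?_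
        congr 1
        refine iSup_congr fun i => ?_
        congr 1
        exact ih i _
      · refine iInf_congr fun j => ?_
        congr 1
        refine iSup_congr fun i => ?_
        congr 1
        exact ih j _

/-- if `x = y` and `i` is an element of `x` then it is in `y` -/
theorem beq_inf_bval_le (x y : BSet B) (i : x.type) :
    beq x y ⊓ x.bval i ≤ bmem (x.func i) y := by
  rw [beq_def]
  refine le_trans (inf_le_inf_right _ (inf_le_left.trans (iInf_le _ i))) ?_
  rw [inf_comm]
  exact inf_himp_le

/-- inclusion -/
def bsub (x y : BSet B) : B := ⨅ i : x.type, x.bval i ⇨ bmem (x.func i) y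

theorem beq_eq (x y : BSet B) : beq x y = bsub x y ⊓ bsub y x := by
  rw [beq_def]
  unfold bsub bmem
  congr 1
  refine iInf_congr fun j => ?_
  congr 1
  refine iSup_congr fun i => ?_
  congr 1
  exact beq_symm _ _

theorem beq_trans (x y z : BSet B) : beq x y ⊓ beq y z ≤ beq x z := by
  induction x generalizing y z with
  | mk α A a ih =>
    rw [beq_eq (mk α A a) z]
    refine le_inf (le_iInf fun i => ?_) (le_iInf fun k => ?_)
    · rw [le_himp_iff]
      calc beq (mk α A a) y ⊓ beq y z ⊓ (mk α A a).bval i
          ≤ (beq (mk α A a) y ⊓ (mk α A a).bval i) ⊓ beq y z := by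
            rw [inf_right_comm]
        _ ≤ bmem (A i) y ⊓ beq y z := inf_le_inf_right _ (beq_inf_bval_le (mk α A a) y i)
        _ ≤ bmem (A i) z := by
            unfold bmem
            rw [iSup_inf_eq]
            refine iSup_le fun j => ?_
            have h1 := beq_inf_bval_le y z j
            calc y.bval j ⊓ beq (A i) (y.func j) ⊓ beq y z
                = beq (A i) (y.func j) ⊓ (beq y z ⊓ y.bval j) := by
                  rw [inf_comm (y.bval j), inf_assoc, inf_comm (y.bval j)]
              _ ≤ beq (A i) (y.func j) ⊓ bmem (y.func j) z := inf_le_inf_left _ h1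
              _ ≤ ⨆ k, z.bval k ⊓ beq (A i) (z.func k) := by
                  unfold bmem
                  rw [inf_iSup_eq]
                  refine iSup_mono fun k => ?_
                  rw [← inf_assoc, inf_comm (beq (A i) (y.func j)), inf_assoc]
                  exact inf_le_inf_left _ (ih i _ _)
    · rw [le_himp_iff]
      calc beq (mk α A a) y ⊓ beq y z ⊓ z.bval k
          ≤ (beq z y ⊓ z.bval k) ⊓ beq y (mk α A a) := by
            rw [beq_symm z y, beq_symm y (mk α A a), inf_assoc, inf_comm]
        _ ≤ bmem (z.func k) y ⊓ beq y (mk α A a) := inf_le_inf_right _ (beq_inf_bval_le z y k)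
        _ ≤ bmem (z.func k) (mk α A a) := by
            unfold bmem
            rw [iSup_inf_eq]
            refine iSup_le fun j => ?_
            have h1 := beq_inf_bval_le y (mk α A a) j
            calc y.bval j ⊓ beq (z.func k) (y.func j) ⊓ beq y (mk α A a)
                = beq (z.func k) (y.func j) ⊓ (beq y (mk α A a) ⊓ y.bval j) := by
                  rw [inf_comm (y.bval j), inf_assoc, inf_comm (y.bval j)]
              _ ≤ beq (z.func k) (y.func j) ⊓ bmem (y.func j) (mk α A a) := inf_le_inf_left _ h1
              _ ≤ ⨆ i, (mk α A a).bval i ⊓ beq (z.func k) ((mk α A a).func i) := by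
                  unfold bmem
                  rw [inf_iSup_eq]
                  refine iSup_mono fun i => ?_
                  rw [← inf_assoc, inf_comm (beq (z.func k) (y.func j)), inf_assoc]
                  refine inf_le_inf_left _ ?_
                  have := ih i (y.func j) (z.func k)
                  rw [inf_comm, beq_symm (y.func j), beq_symm (z.func k) (y.func j),
                    beq_symm (z.func k)]
                  exact this

theorem bval_le_bmem (x : BSet B) (i : x.type) : x.bval i ≤ bmem (x.func i) x :=
  le_iSup_of_le i (le_inf le_rfl (by rw [beq_refl]; exact le_top))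

/-- `x = x'` and `x ∈ y` imply `x' ∈ y` -/
theorem bmem_congr_left (x x' y : BSet B) : beq x x' ⊓ bmem x y ≤ bmem x' y := by
  unfold bmem
  rw [inf_iSup_eq]
  refine iSup_mono fun j => ?_
  rw [← inf_assoc, inf_comm (beq x x'), inf_assoc]
  refine inf_le_inf_left _ ?_
  rw [beq_symm x x']
  exact beq_trans _ _ _

/-- `y = y'` and `x ∈ y` imply `x ∈ y'` -/
theorem bmem_congr_right (x y y' : BSet B) : beq y y' ⊓ bmem x y ≤ bmem x y' := by
  conv_lhs => unfold bmem
  rw [inf_iSup_eq]
  refine iSup_le fun j => ?_
  rw [← inf_assoc]
  refine (inf_le_inf_right _ (beq_inf_bval_le y y' j)).trans ?_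
  rw [inf_comm, beq_symm]
  exact bmem_congr_left _ _ _

/-- Boolean value of a formula -/
def fv : Fml → (ℕ → BSet B) → B
  | .mem i j, v => bmem (v i) (v j)
  | .eq i j, v => beq (v i) (v j)
  | .fal, _ => ⊥
  | .imp φ ψ, v => fv φ v ⇨ fv ψ v
  | .all i φ, v => ⨅ x : BSet B, fv φ (Function.update v i x)

/-- a function from names to the algebra is extensional -/
def Ext (F : BSet B → B) : Prop := ∀ x y, beq x y ⊓ F x ≤ F y

end BSet

end Pool.Agent.H9.FC
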