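import Pool.Agent.H9.FC.BV

/-! Derived formulas, special names, generic quotients of Boolean valued models. -/

namespace Pool.Agent.H9.FC

/-! ### derived connectives -/

namespace Fml

/-- negation -/
def neg (φ : Fml) : Fml := .imp φ .fal
/-- conjunction -/
def and (φ ψ : Fml) : Fml := neg (.imp φ (neg ψ))
/-- disjunction -/
def or (φ ψ : Fml) : Fml := .imp (neg φ) ψ
/-- equivalence -/
def iff (φ ψ : Fml) : Fml := and (.imp φ ψ) (.imp ψ φ)
/-- existential quantifier -/
def ex (i : ℕ) (φ : Fml) : Fml := neg (.all i (neg φ))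

/-- all variables of the formula are below `bd` -/
def bd : Fml → ℕ
  | .mem i j => max i j + 1
  | .eq i j => max i j + 1
  | .fal => 0
  | .imp φ ψ => max φ.bd ψ.bd
  | .all i φ => max (i + 1) φ.bd

end Fml

namespace BSet

variable {B : Type} [CompleteBooleanAlgebra B]

/-- unordered pair -/
def bup (x y : BSet B) : BSet B := mk Bool (fun t => cond t x y) (fun _ => ⊤)

/-- ordered pair (Kuratowski) -/
def bop (x y : BSet B) : BSet B := bup (bup x x) (bup x y)

/-- successor `x ∪ {x}` -/
def bsucc (x : BSet B) : BSet B :=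
  mk (Option x.type) (fun o => o.elim x x.func) (fun o => o.elim ⊤ x.bval)

/-- numerals -/
def bnum : ℕ → BSet B
  | 0 => mk Empty Empty.elim Empty.elim
  | n + 1 => bsucc (bnum n)

/-- the set of natural numbers -/
def bomega : BSet B := mk ℕ bnum (fun _ => ⊤)

/-- the name of the pair `(n, m)` -/
def bnp (n m : ℕ) : BSet B := bop (bnum n) (bnum m)

/-- the name of a relation given by Boolean values; used for functions `ω → ω` -/
def bfn (r : ℕ → ℕ → B) : BSet B := mk (ℕ × ℕ) (fun q => bnp q.1 q.2) (fun q => r q.1 q.2)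

/-- the name of the function `x : ω → ω` -/
def bgr (x : ℕ → ℕ) : BSet B := mk ℕ (fun n => bnp n (x n)) (fun _ => ⊤)

/-- the name of the set of all ground model functions in `∏ b` -/
def bfam (b : ℕ → ℕ) : BSet B := mk {x : ℕ → ℕ // ∀ k, x k < b k} (fun x => bgr x.1) (fun _ => ⊤)

/-- Boolean values of `(n, m) ∈ z` -/
def rv (z : BSet B) (n m : ℕ) : B := bmem (bnp n m) z

/-- the function (as a partition of unity for every argument) read off a family of values: the
least `m` such that the value holds, and `0` if there is none -/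
def least (c : ℕ → ℕ → B) (n m : ℕ) : B :=
  (c n m ⊓ ⨅ k : Fin m, (c n k)ᶜ) ⊔ (if m = 0 then ⨅ k, (c n k)ᶜ else ⊥)

end BSet

/-- a partition of unity -/
def IsPart {B : Type} [CompleteBooleanAlgebra B] {ι : Type} (r : ι → B) : Prop :=
  (⨆ i, r i) = ⊤ ∧ ∀ i j, i ≠ j → r i ⊓ r j = ⊥

open BSet

/-- data for a quotient: a set of names closed under Skolem functions and an ultrafilter -/
structure Gen (B : Type) [CompleteBooleanAlgebra B] where
  /-- the names -/
  X : Set (BSet B)
  /-- the ultrafilter -/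
  G : Set B
  top_mem : ⊤ ∈ G
  bot_not_mem : ⊥ ∉ G
  inf_mem : ∀ {a c : B}, a ∈ G → c ∈ G → a ⊓ c ∈ G
  up : ∀ {a c : B}, a ∈ G → a ≤ c → c ∈ G
  ultra : ∀ a : B, a ∈ G ∨ aᶜ ∈ G
  nonempty : X.Nonempty
  skolem : ∀ (φ : Fml) (v : ℕ → BSet B), (∀ i, v i ∈ X) → ∀ i, ∃ x ∈ X,
    fv φ (Function.update v i x) = ⨆ y, fv φ (Function.update v i y)

namespace Gen

variable {B : Type} [CompleteBooleanAlgebra B] (M : Gen B)

/-- equality in the quotient -/
def setoid : Setoid M.X where
  r x y := beq x.1 y.1 ∈ M.G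
  iseqv := ⟨fun x => by rw [beq_refl]; exact M.top_mem,
    fun {x y} h => by rw [beq_symm]; exact h,
    fun {x y z} h h' => M.up (M.inf_mem h h') (beq_trans _ _ _)⟩

/-- the universe of the quotient -/
def N : Type 1 := Quotient M.setoid

/-- the class of a name -/
def cl (x : M.X) : M.N := Quotient.mk M.setoid x

/-- membership in the quotient -/
def E : M.N → M.N → Prop :=
  Quotient.lift₂ (fun x y => bmem x.1 y.1 ∈ M.G) (by
    intro x y x' y' hx hy
    apply propext
    constructor
    · intro h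
      have h1 := M.up (M.inf_mem hx h) (bmem_congr_left x.1 x'.1 y.1)
      exact M.up (M.inf_mem hy h1) (bmem_congr_right x'.1 y.1 y'.1)
    · intro h
      have hx' : beq x'.1 x.1 ∈ M.G := by rw [beq_symm]; exact hx
      have hy' : beq y'.1 y.1 ∈ M.G := by rw [beq_symm]; exact hy
      have h1 := M.up (M.inf_mem hx' h) (bmem_congr_left x'.1 x.1 y'.1)
      exact M.up (M.inf_mem hy' h1) (bmem_congr_right x.1 y'.1 y.1))

theorem E_cl (x y : M.X) : M.E (M.cl x) (M.cl y) ↔ bmem x.1 y.1 ∈ M.G := Iff.rfl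

theorem cl_eq (x y : M.X) : M.cl x = M.cl y ↔ beq x.1 y.1 ∈ M.G := by
  constructor
  · intro h
    exact Quotient.exact h
  · intro h
    exact Quotient.sound h

theorem cl_surj (z : M.N) : ∃ x : M.X, M.cl x = z := by
  induction z using Quotient.inductionOn with
  | h x => exact ⟨x, rfl⟩

end Gen

end Pool.Agent.H9.FC
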