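import Mathlib

/-! Definitions for the forcing notion: a finite support iteration of bounded slalom forcings,
coded as a family of subsets of a space of points, ordered by inclusion. -/

namespace Pool.Agent.H9.FC

open Set

/-- numerical parameters -/
structure Par where
  /-- block lengths -/
  ell : ℕ → ℕ
  /-- alphabet sizes -/
  a : ℕ → ℕ
  /-- widths -/
  w : ℕ → ℕ → ℕ
  /-- branching numbers -/
  e : ℕ → ℕ → ℕ
  /-- the summable function -/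
  b : ℕ → ℕ
  a_eq : ∀ i, a i = 2 ^ ell i
  ell_pos : ∀ i, 1 ≤ ell i
  w_zero : ∀ i, 1 ≤ w 0 i
  w_succ : ∀ l i, 2 * w l i ≤ w (l + 1) i
  w_le : ∀ l i, l + 2 ≤ i → 2 * w l i ≤ a i
  e_two : ∀ k, 2 ≤ e 0 k
  e_succ : ∀ m k, e m k * ∏ i ∈ Finset.range (k + 1), 2 ^ a i ≤ e (m + 1) k
  e_w : ∀ m n i l, m ≤ n → n ≤ i → (∏ k ∈ Finset.Ico n i, e m k) * w l i ≤ w (l + 1) i
  e_b : ∀ m k, m ≤ k → e m k ≤ b k
  b_ge : ∀ k, 2 ^ k ≤ b k

/-- points -/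
abbrev Pt (Ω : Type) := Ω → ℕ → Finset ℕ

variable {Ω : Type} [LinearOrder Ω]

/-- `f` depends only on the coordinates below `γ` -/
def DepLt {α : Type} (γ : Ω) (f : Pt Ω → α) : Prop :=
  ∀ x x' : Pt Ω, (∀ δ < γ, x δ = x' δ) → f x = f x'

/-- `f` is densely decided by the sets in `Q` -/
def Dec {α : Type} (Q : Set (Set (Pt Ω))) (f : Pt Ω → α) : Prop :=
  ∀ U ∈ Q, ∃ V ∈ Q, V ⊆ U ∧ ∃ c, ∀ x ∈ V, f x = c

/-- legal stems -/
def StemOK (p : Par) (s : List (Finset ℕ)) : Prop :=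
  ∀ i < s.length, s.getD i ∅ ⊆ Finset.range (p.a i) ∧ 2 * (s.getD i ∅).card ≤ p.a i

/-- names of slaloms of width `w l` -/
def IsName (p : Par) (Q : Set (Set (Pt Ω))) (γ : Ω) (l : ℕ) (φ : Pt Ω → ℕ → Finset ℕ) : Prop :=
  (∀ x i, φ x i ⊆ Finset.range (p.a i) ∧ (φ x i).card ≤ p.w l i) ∧ DepLt γ φ ∧
    ∀ i, Dec Q (fun x => φ x i)

/-- the set given by a condition at the coordinate `γ` -/
def atom (γ : Ω) (s : List (Finset ℕ)) (φ : Pt Ω → ℕ → Finset ℕ) : Set (Pt Ω) :=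
  {x | (∀ i < s.length, x γ i = s.getD i ∅) ∧ ∀ i, s.length ≤ i → φ x i ⊆ x γ i}

/-- one step of the recursion -/
def PPstep (p : Par) (γ : Ω) (IH : ∀ δ : Ω, δ < γ → Set (Set (Pt Ω))) : Set (Set (Pt Ω)) :=
  {W | W = univ ∨ ∃ δ : Ω, ∃ h : δ < γ, ∃ U ∈ IH δ h, ∃ s l φ, StemOK p s ∧ l + 2 ≤ s.length ∧
    IsName p (IH δ h) δ l φ ∧ W = U ∩ atom δ s φ}

/-- the forcing notion `P_γ`, ordered by inclusion -/
noncomputable def PP (p : Par) [WellFoundedLT Ω] : Ω → Set (Set (Pt Ω)) :=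
  (wellFounded_lt (α := Ω)).fix (PPstep p)

theorem mem_PP (p : Par) [WellFoundedLT Ω] (γ : Ω) (W : Set (Pt Ω)) :
    W ∈ PP p γ ↔ W = univ ∨ ∃ δ < γ, ∃ U ∈ PP p δ, ∃ s l φ, StemOK p s ∧ l + 2 ≤ s.length ∧
      IsName p (PP p δ) δ l φ ∧ W = U ∩ atom δ s φ := by
  unfold PP
  rw [WellFounded.fix_eq]
  constructor
  · rintro (h | ⟨δ, h, U, hU, s, l, φ, h1⟩)
    · exact Or.inl h
    · exact Or.inr ⟨δ, h, U, hU, s, l, φ, h1⟩
  · rintro (h | ⟨δ, h, U, hU, s, l, φ, h1⟩)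
    · exact Or.inl h
    · exact Or.inr ⟨δ, h, U, hU, s, l, φ, h1⟩

/-- saturation below `γ` -/
def sat (γ : Ω) (U : Set (Pt Ω)) : Set (Pt Ω) := {x | ∃ x' ∈ U, ∀ δ < γ, x δ = x' δ}

/-- compatibility in `Q` -/
def Comp (Q : Set (Set (Pt Ω))) (U V : Set (Pt Ω)) : Prop := ∃ R ∈ Q, R ⊆ U ∧ R ⊆ V

/-! ### trees and bounds -/

/-- `T` contains a tree on the levels `n, …, n+d-1` which has `e m k` immediate successors
(smaller than `b k`) at every node of level `k` -/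
def Big (p : Par) (m : ℕ) : ℕ → ℕ → Set (List ℕ) → Prop
  | _, 0, T => [] ∈ T
  | n, d + 1, T => ∃ C : Finset ℕ, C.card = p.e m n ∧ (∀ c ∈ C, c < p.b n) ∧
      ∀ c ∈ C, Big p m (n + 1) d {u | c :: u ∈ T}

/-- values of bounds: an interval `[n, n+d)` and a finite set of sequences on it -/
abbrev BVal := ℕ × ℕ × Finset (List ℕ)

/-- the sequences of the value contain no big tree -/
def Small (p : Par) (m : ℕ) (v : BVal) : Prop := ¬ Big p m v.1 v.2.1 (↑v.2.2 : Set (List ℕ))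

/-- restriction of `x` to `[i, i+d)` -/
def res (x : ℕ → ℕ) (i d : ℕ) : List ℕ := (List.range d).map (fun j => x (i + j))

/-- the restriction of `x` belongs to the value -/
def Hit (x : ℕ → ℕ) (v : BVal) : Prop := res x v.1 v.2.1 ∈ v.2.2

/-- ground model bound of level `m` -/
def IsBound (p : Par) (m : ℕ) (h : ℕ → BVal) : Prop := ∀ n, n ≤ (h n).1 ∧ Small p m (h n)

/-- `x` is bounded by `h` -/
def Rel (x : ℕ → ℕ) (h : ℕ → BVal) : Prop := ∃ n₀, ∀ n ≥ n₀, Hit x (h n)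

/-- names of bounds of level `m` for the forcing `P_γ` -/
def IsBName (p : Par) [WellFoundedLT Ω] (γ : Ω) (m : ℕ) (y : Pt Ω → ℕ → BVal) : Prop :=
  (∀ x n, n ≤ (y x n).1 ∧ Small p m (y x n)) ∧ DepLt γ y ∧ ∀ n, Dec (PP p γ) (fun x => y x n)

/-- `U` forces (in `P_γ`) that `x` hits `y n` for all `n ≥ n₀` -/
def Fo (p : Par) [WellFoundedLT Ω] (γ : Ω) (U : Set (Pt Ω)) (x : ℕ → ℕ) (y : Pt Ω → ℕ → BVal)
    (n₀ : ℕ) : Prop :=
  ∀ n ≥ n₀, ∀ V ∈ PP p γ, V ⊆ U → ∀ c, (∀ t ∈ V, y t n = c) → Hit x c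

/-- all sequences on `[n, n+d)` below `b` -/
def boxF (p : Par) : ℕ → ℕ → Finset (List ℕ)
  | _, 0 => {[]}
  | n, d + 1 => (Finset.range (p.b n)).biUnion (fun c => (boxF p (n + 1) d).image (List.cons c))

/-- the sequences on `[n, n+d)` that meet `h` -/
def meetF (p : Par) (n d : ℕ) (h : ℕ → ℕ) : Finset (List ℕ) :=
  (boxF p n d).filter (fun u => ∃ j < d, u.getD j 0 = h (n + j))

end Pool.Agent.H9.FC
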