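import Pool.Agent.H9.FC.RO
import Pool.Agent.H9.FC.PS
import Pool.Agent.H9.FC.GD

/-! Definitions for the connection between the forcing notion and Boolean valued sets. -/

namespace Pool.Agent.H9.FC

open Set BSet

/-- the conditions -/
abbrev Cond (p : Par) (Ω : Type) [LinearOrder Ω] [WellFoundedLT Ω] [OrderTop Ω] :=
  {U : Set (Pt Ω) // U ∈ PP p (⊤ : Ω)}

/-- the complete Boolean algebra -/
abbrev BB (p : Par) (Ω : Type) [LinearOrder Ω] [WellFoundedLT Ω] [OrderTop Ω] := RO (Cond p Ω)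

/-- families of size at most the continuum are bounded below the top -/
def HC (Ω : Type) [LinearOrder Ω] [OrderTop Ω] : Prop :=
  ∀ (I : Type) (f : I → Ω), Cardinal.mk I ≤ Cardinal.continuum → (∀ i, f i < ⊤) →
    ∃ β < (⊤ : Ω), ∀ i, f i < β

/-- start of the `i`-th block -/
def bl (p : Par) (i : ℕ) : ℕ := ∑ i' ∈ Finset.range i, p.ell i'

/-- code of a list (read modulo 2) -/
def cod (ρ : List ℕ) : ℕ := ρ.foldr (fun c acc => c % 2 + 2 * acc) 0

/-- `c = (P, Q, ρ)` where `ρ` has length `Q - P` and the interval `[P, Q)` with `ρ` is not legal at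
`n` or `x` does not meet `ρ` on it -/
def Bad (p : Par) (x : ℕ → ℕ) (n : ℕ) (c : ℕ × ℕ × List ℕ) : Prop :=
  c.2.2.length = c.2.1 - c.1 ∧ ¬ (n ≤ c.1 ∧ c.1 < c.2.1 ∧
    (∀ i < c.2.2.length, c.2.2.getD i 0 < p.b (c.1 + i)) ∧
    ∃ i < c.2.2.length, x (c.1 + i) = c.2.2.getD i 0)

variable {B : Type} [CompleteBooleanAlgebra B]

/-- Boolean value of: `x` does not meet `h` on the `n`-th interval of `j` (or this is not legal) -/
noncomputable def avoid (p : Par) (j h : ℕ → ℕ → B) (x : ℕ → ℕ) (n : ℕ) : B :=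
  ⨆ c : {c : ℕ × ℕ × List ℕ // Bad p x n c}, j n c.1.1 ⊓ j (n + 1) c.1.2.1 ⊓
    ⨅ i : Fin c.1.2.2.length, h (c.1.1 + i) (c.1.2.2.getD i 0)

/-- Boolean value of: the `i`-th block of `a` (coded) belongs to the slalom `τ` -/
noncomputable def inb (p : Par) (a : ℕ → ℕ → B) (τ : ℕ → Finset ℕ → B) (i : ℕ) : B :=
  ⨆ c : {c : Finset ℕ × List ℕ // c.2.length = p.ell i ∧ cod c.2 ∈ c.1}, τ i c.1.1 ⊓
    ⨅ j : Fin c.1.2.length, a (bl p i + j) (c.1.2.getD j 0)

/-- from `m` on all blocks of `a` belong to `τ` -/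
noncomputable def cov (p : Par) (a : ℕ → ℕ → B) (τ : ℕ → Finset ℕ → B) (m : ℕ) : B :=
  ⨅ i, ⨅ (_ : m ≤ i), inb p a τ i

/-- all complete blocks of `σ` with number at least `m` belong to the slalom `A` -/
def okS (p : Par) (A : ℕ → Finset ℕ) (m : ℕ) (σ : List ℕ) : Prop :=
  ∀ i, m ≤ i → bl p (i + 1) ≤ σ.length → cod ((σ.drop (bl p i)).take (p.ell i)) ∈ A i

open Classical in
/-- the code of the sequence of closed sets -/
noncomputable def tA (p : Par) (A : ℕ → Finset ℕ) (k : ℕ) : ℕ :=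
  if ∃ σ : List ℕ, Encodable.decode (Nat.unpair k).2 = some σ ∧ okS p A (Nat.unpair k).1 σ
    then 1 else 0

/-- Boolean value of `tA k = 1` -/
noncomputable def tval (p : Par) (τ : ℕ → Finset ℕ → B) (k : ℕ) : B :=
  ⨆ σ : {σ : List ℕ // Encodable.decode (Nat.unpair k).2 = some σ},
    ⨅ i : {i : ℕ // (Nat.unpair k).1 ≤ i ∧ bl p (i + 1) ≤ σ.1.length},
      ⨆ A : {A : Finset ℕ // cod ((σ.1.drop (bl p i.1)).take (p.ell i.1)) ∈ A}, τ i.1 A.1

/-- the Boolean valued version of `tA` -/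
noncomputable def tB (p : Par) (τ : ℕ → Finset ℕ → B) (k v : ℕ) : B :=
  if v = 1 then tval p τ k else if v = 0 then (tval p τ k)ᶜ else ⊥

/-- Boolean values of the real that is the value of the relation `g` at `x` -/
noncomputable def gval (g : BSet B) (x : ℕ → ℕ) (n m : ℕ) : B :=
  ⨆ z : BSet B, bmem (bop (bgr x) z) g ⊓ rv z n m

/-- the value of: `(w,z)` and `(w,z')` in `g` and `z ≠ z'` -/
def nfun (g w z z' : BSet B) : B := bmem (bop w z) g ⊓ bmem (bop w z') g ⊓ (beq z z')ᶜ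

end Pool.Agent.H9.FC
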