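import Pool.Agent.H9.FC.CD

/-! Variant of `avoid` without the condition that `h` is below `b`. -/

namespace Pool.Agent.H9.FC

open Set BSet

/-- `c = (P, Q, ρ)` where `ρ` has length `Q - P` and the interval `[P, Q)` is not legal at `n` or `x`
does not meet `ρ` on it -/
def Bad2 (x : ℕ → ℕ) (n : ℕ) (c : ℕ × ℕ × List ℕ) : Prop :=
  c.2.2.length = c.2.1 - c.1 ∧ ¬ (n ≤ c.1 ∧ c.1 < c.2.1 ∧
    ∃ i < c.2.2.length, x (c.1 + i) = c.2.2.getD i 0)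

/-- Boolean value of: `x` does not meet `h` on the `n`-th interval of `j` (or this is not legal) -/
noncomputable def avoid2 {B : Type} [CompleteBooleanAlgebra B] (j h : ℕ → ℕ → B) (x : ℕ → ℕ)
    (n : ℕ) : B :=
  ⨆ c : {c : ℕ × ℕ × List ℕ // Bad2 x n c}, j n c.1.1 ⊓ j (n + 1) c.1.2.1 ⊓
    ⨅ i : Fin c.1.2.2.length, h (c.1.1 + i) (c.1.2.2.getD i 0)

/-- the ground model functions are unbounded -/
def T_UNB2 : Prop := ∀ (p : Par) (Ω : Type) [LinearOrder Ω] [WellFoundedLT Ω] [OrderTop Ω], HC Ω →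
  ∀ (j h : ℕ → ℕ → BB p Ω), (∀ n, IsPart (j n)) → (∀ n, IsPart (h n)) →
  ∃ x : ℕ → ℕ, (∀ k, x k < p.b k) ∧ ∀ n₀, (⨆ n, avoid2 j h x (n₀ + n)) = ⊤

/-- the family of ground model functions is unbounded in the quotient -/
def T_QF12 : Prop := ∀ (p : Par) (B : Type) [CompleteBooleanAlgebra B] (M : Gen B)
  (xx : BSet B → BSet B → ℕ → ℕ) (hF : bfam p.b ∈ M.X),
  (∀ n, bnum n ∈ M.X) → (∀ x y, x ∈ M.X → y ∈ M.X → bup x y ∈ M.X) →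
  (∀ u v, u ∈ M.X → v ∈ M.X → bgr (xx u v) ∈ M.X) →
  (∀ u v k, xx u v k < p.b k) →
  (∀ u v n₀, (⨆ n, avoid2 (least (rv u)) (least (rv v)) (xx u v) (n₀ + n)) = ⊤) →
  (∀ t ∈ M.X, (⨆ q : ℕ × ℕ, beq t (bnp q.1 q.2)) ∈ M.G → ∃ n m, beq t (bnp n m) ∈ M.G) →
  (∀ u v, u ∈ M.X → v ∈ M.X → ∀ n₀,
    (⨆ n, avoid2 (least (rv u)) (least (rv v)) (xx u v) (n₀ + n)) ∈ M.G →
    ∃ n, avoid2 (least (rv u)) (least (rv v)) (xx u v) (n₀ + n) ∈ M.G) →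
  ∀ b' : ℕ → ℕ, (∀ k, p.b k ≤ b' k) → UnboundedFamily M.E b' (M.cl ⟨bfam p.b, hF⟩)

/-- the goal: moreover the family is unbounded for every larger function -/
def Goal2 : Prop :=
  ∃ (N : Type 1) (E : N → N → Prop), ZFCModel E ∧ OmegaModel E ∧
    ∃ b : ℕ → ℕ, (∀ k, 1 ≤ b k) ∧ Summable (fun k => (1 : ℝ) / b k) ∧ InModel E b ∧
      ∃ F, SmallerThanNonE E F ∧ ∀ b' : ℕ → ℕ, (∀ k, b k ≤ b' k) → UnboundedFamily E b' F

end Pool.Agent.H9.FC
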