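import Pool.Agent.H9.FC.CD

/-! Targets about the connection between the forcing notion and Boolean valued sets. -/

namespace Pool.Agent.H9.FC

open Set BSet

/-- Boolean valued reals are given by names which are functions on the space of points -/
def T_CNV : Prop := ∀ (p : Par) (Ω : Type) [LinearOrder Ω] [WellFoundedLT Ω] [OrderTop Ω], HC Ω →
  ∀ (ι : Type) (d : ι) (r : ℕ → ι → BB p Ω), (∀ n, IsPart (r n)) →
  ∃ β < (⊤ : Ω), ∃ f : Pt Ω → ℕ → ι, DepLt β f ∧ (∀ n, Dec (PP p β) (fun x => f x n)) ∧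
    (∀ x n, f x n = d ∨ r n (f x n) ≠ ⊥) ∧
    ∀ n c (V : Cond p Ω), (∀ x ∈ V.1, f x n = c) → V ∈ (r n c).1

/-- the ground model functions are unbounded -/
def T_UNB : Prop := ∀ (p : Par) (Ω : Type) [LinearOrder Ω] [WellFoundedLT Ω] [OrderTop Ω], HC Ω →
  ∀ (j h : ℕ → ℕ → BB p Ω), (∀ n, IsPart (j n)) → (∀ n, IsPart (h n)) →
  ∃ x : ℕ → ℕ, (∀ k, x k < p.b k) ∧ ∀ n₀, (⨆ n, avoid p j h x (n₀ + n)) = ⊤

/-- slaloms which capture many reals -/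
def T_SLA : Prop := ∀ (p : Par) (Ω : Type) [LinearOrder Ω] [WellFoundedLT Ω] [OrderTop Ω], HC Ω →
  ∀ (I : Type) (a : I → ℕ → ℕ → BB p Ω), Cardinal.mk I ≤ Cardinal.continuum →
  (∀ ξ n, IsPart (a ξ n)) →
  ∃ τ : ℕ → Finset ℕ → BB p Ω, (∀ i, IsPart (τ i)) ∧
    (∀ i A, τ i A ≠ ⊥ → A ⊆ Finset.range (p.a i) ∧ 2 * A.card ≤ p.a i) ∧
    ∀ ξ, (⨆ m, cov p (a ξ) τ m) = ⊤

/-- the closed sets given by a slalom have measure zero -/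
def T_TRE : Prop := ∀ (p : Par) (A : ℕ → Finset ℕ),
  (∀ i, A i ⊆ Finset.range (p.a i) ∧ 2 * (A i).card ≤ p.a i) →
  ∀ m, ClosedNull (strs (tA p A) m)

/-- evaluation of `tB` by an ultrafilter -/
def T_TBV : Prop := ∀ (p : Par) (B : Type) [CompleteBooleanAlgebra B] (M : Gen B)
  (τ : ℕ → Finset ℕ → B), (∀ i, IsPart (τ i)) →
  (∀ i A, τ i A ≠ ⊥ → A ⊆ Finset.range (p.a i) ∧ 2 * A.card ≤ p.a i) →
  ∃ A : ℕ → Finset ℕ, (∀ i, A i ⊆ Finset.range (p.a i) ∧ 2 * (A i).card ≤ p.a i) ∧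
    (∀ i, τ i (A i) ∈ M.G) ∧ (∀ k v, tB p τ k v ∈ M.G ↔ v = tA p A k)

/-- witnesses for the failure of being a function -/
def T_FNC : Prop := ∀ (B : Type) [CompleteBooleanAlgebra B] (g : BSet B),
  ∃ w z z' : BSet B, ∀ a c c', nfun g a c c' ≤ nfun g w z z'

/-- the family of ground model functions is unbounded in the quotient -/
def T_QF1 : Prop := ∀ (p : Par) (B : Type) [CompleteBooleanAlgebra B] (M : Gen B)
  (xx : BSet B → BSet B → ℕ → ℕ) (hF : bfam p.b ∈ M.X),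
  (∀ n, bnum n ∈ M.X) → (∀ x y, x ∈ M.X → y ∈ M.X → bup x y ∈ M.X) →
  (∀ u v, u ∈ M.X → v ∈ M.X → bgr (xx u v) ∈ M.X) →
  (∀ u v k, xx u v k < p.b k) →
  (∀ u v n₀, (⨆ n, avoid p (least (rv u)) (least (rv v)) (xx u v) (n₀ + n)) = ⊤) →
  (∀ t ∈ M.X, (⨆ q : ℕ × ℕ, beq t (bnp q.1 q.2)) ∈ M.G → ∃ n m, beq t (bnp n m) ∈ M.G) →
  (∀ u v, u ∈ M.X → v ∈ M.X → ∀ n₀,
    (⨆ n, avoid p (least (rv u)) (least (rv v)) (xx u v) (n₀ + n)) ∈ M.G →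
    ∃ n, avoid p (least (rv u)) (least (rv v)) (xx u v) (n₀ + n) ∈ M.G) →
  UnboundedFamily M.E p.b (M.cl ⟨bfam p.b, hF⟩)

/-- the family of ground model functions has smaller cardinality than `non(E)` in the quotient -/
def T_QF2 : Prop := ∀ (p : Par) (B : Type) [CompleteBooleanAlgebra B] (M : Gen B)
  (τ : BSet B → ℕ → Finset ℕ → B) (fw fz fz' : BSet B → BSet B) (hF : bfam p.b ∈ M.X),
  (∀ n, bnum n ∈ M.X) → (∀ x y, x ∈ M.X → y ∈ M.X → bup x y ∈ M.X) →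
  (∀ g ∈ M.X, bfn (tB p (τ g)) ∈ M.X ∧ fw g ∈ M.X ∧ fz g ∈ M.X ∧ fz' g ∈ M.X) →
  (∀ g a c c', nfun g a c c' ≤ nfun g (fw g) (fz g) (fz' g)) →
  (∀ g i, IsPart (τ g i)) →
  (∀ g i A, τ g i A ≠ ⊥ → A ⊆ Finset.range (p.a i) ∧ 2 * A.card ≤ p.a i) →
  (∀ g (x : ℕ → ℕ), (∀ k, x k < p.b k) → (⨆ m, cov p (least (gval g x)) (τ g) m) = ⊤) →
  (∀ t ∈ M.X, (⨆ q : ℕ × ℕ, beq t (bnp q.1 q.2)) ∈ M.G → ∃ n m, beq t (bnp n m) ∈ M.G) →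
  (∀ g ∈ M.X, ∀ z ∈ M.X, (⨆ m, cov p (least (rv z)) (τ g) m) ∈ M.G →
    ∃ m, cov p (least (rv z)) (τ g) m ∈ M.G) →
  SmallerThanNonE M.E (M.cl ⟨bfam p.b, hF⟩)

end Pool.Agent.H9.FC
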