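import Mathlib

/-! Statement: models of ZFC and the two cardinals inside them. -/

namespace Pool.Agent.H9.FC

universe u

/-- formulas of the language of set theory, variables are indexed by natural numbers -/
inductive Fml : Type
  | mem (i j : ℕ) : Fml
  | eq (i j : ℕ) : Fml
  | fal : Fml
  | imp (φ ψ : Fml) : Fml
  | all (i : ℕ) (φ : Fml) : Fml

/-- satisfaction in the structure `(N, E)` under the assignment `v` -/
def Sat {N : Type u} (E : N → N → Prop) : Fml → (ℕ → N) → Prop
  | .mem i j, v => E (v i) (v j)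
  | .eq i j, v => v i = v j
  | .fal, _ => False
  | .imp φ ψ, v => Sat E φ v → Sat E ψ v
  | .all i φ, v => ∀ x, Sat E φ (Function.update v i x)

/-- the axioms of ZFC for a structure `(N, E)` -/
structure ZFCModel {N : Type u} (E : N → N → Prop) : Prop where
  ext : ∀ x y, (∀ z, E z x ↔ E z y) → x = y
  found : ∀ x, (∃ y, E y x) → ∃ y, E y x ∧ ∀ z, E z x → ¬ E z y
  pair : ∀ x y, ∃ z, ∀ t, E t z ↔ t = x ∨ t = y
  union : ∀ x, ∃ z, ∀ t, E t z ↔ ∃ y, E y x ∧ E t y
  power : ∀ x, ∃ z, ∀ t, E t z ↔ ∀ s, E s t → E s x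
  infinity : ∃ w, (∃ e, E e w ∧ ∀ t, ¬ E t e) ∧
    ∀ y, E y w → ∃ z, E z w ∧ ∀ t, E t z ↔ E t y ∨ t = y
  sep : ∀ (φ : Fml) (v : ℕ → N) (a : N), ∃ z, ∀ t, E t z ↔
    E t a ∧ Sat E φ (Function.update v 0 t)
  repl : ∀ (φ : Fml) (v : ℕ → N) (a : N),
    (∀ x, E x a → ∃! y, Sat E φ (Function.update (Function.update v 0 x) 1 y)) →
    ∃ z, ∀ y, E y z ↔ ∃ x, E x a ∧ Sat E φ (Function.update (Function.update v 0 x) 1 y)
  choice : ∀ x, (∀ y, E y x → ∃ z, E z y) →
    (∀ y y', E y x → E y' x → (∃ z, E z y ∧ E z y') → y = y') →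
    ∃ c, ∀ y, E y x → ∃! z, E z y ∧ E z c

variable {N : Type u} (E : N → N → Prop)

/-- `x` is the numeral `n` (von Neumann) -/
def IsNum : ℕ → N → Prop
  | 0, x => ∀ t, ¬ E t x
  | n + 1, x => ∃ y, IsNum n y ∧ ∀ t, E t x ↔ E t y ∨ t = y

/-- `(N, E)` is an omega-model: it has a set whose elements are exactly the numerals -/
def OmegaModel : Prop := ∃ w, ∀ t, E t w ↔ ∃ n, IsNum E n t

/-- `t` is the (Kuratowski) ordered pair of `x` and `y` -/
def IsPair (t x y : N) : Prop :=
  ∀ s, E s t ↔ (∀ r, E r s ↔ r = x) ∨ (∀ r, E r s ↔ r = x ∨ r = y)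

/-- `z` is the function `f : ω → ω`, as a set of ordered pairs -/
def Codes (z : N) (f : ℕ → ℕ) : Prop :=
  ∀ t, E t z ↔ ∃ n x y, IsNum E n x ∧ IsNum E (f n) y ∧ IsPair E t x y

/-- the function `f : ω → ω` belongs to the model -/
def InModel (f : ℕ → ℕ) : Prop := ∃ z, Codes E z f

/-- the relation `x ⊏• (J,h)`; the interval partition `J` is given by the strictly increasing
sequence `j` of left end points, `J_n = [j n, j (n+1))` -/
def Bounded (x j h : ℕ → ℕ) : Prop :=
  ∃ n₀, ∀ n ≥ n₀, ∃ k, j n ≤ k ∧ k < j (n + 1) ∧ x k = h k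

/-- the set `F` of the model is a family of elements of `∏ b` that has no bound `(J,h)`
in the model -/
def UnboundedFamily (b : ℕ → ℕ) (F : N) : Prop :=
  (∀ z, E z F → ∃ x, Codes E z x ∧ ∀ k, x k < b k) ∧
  ∀ j h, InModel E j → InModel E h → j 0 = 0 → StrictMono j → (∀ k, h k < b k) →
    ∃ z x, E z F ∧ Codes E z x ∧ ¬ Bounded x j h

/-- the set of finite binary sequences number `m` coded by `t`; it stands for the closed set of all
`x` in Cantor space all of whose initial segments belong to it -/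
def strs (t : ℕ → ℕ) (m : ℕ) : Set (List ℕ) :=
  {σ | t (Nat.pair m (Encodable.encode σ)) = 1}

/-- the closed set given by `S` has measure zero: the proportion of the binary sequences of
length `n` that are in `S` is arbitrarily small for suitable `n` -/
def ClosedNull (S : Set (List ℕ)) : Prop :=
  ∀ k : ℕ, ∃ n : ℕ, k * Nat.card {s : Fin n → Fin 2 // List.ofFn (fun i => (s i : ℕ)) ∈ S} ≤ 2 ^ n

/-- the set `A` of the model belongs to the ideal generated by the closed measure zero sets, in the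
model: some real `t` of the model codes a sequence of closed measure zero sets which cover `A` -/
def InIdeal (A : N) : Prop :=
  ∃ t, InModel E t ∧ (∀ m, ClosedNull (strs t m)) ∧
    ∀ z x, E z A → Codes E z x → ∃ m, ∀ n, List.ofFn (fun i : Fin n => x i) ∈ strs t m

/-- in the model, every set `A` of elements of Cantor space which is the image of (a part of) `F`
under a function of the model belongs to the ideal, i.e. the cardinality of `F` is smaller than
`non(E)` -/
def SmallerThanNonE (F : N) : Prop :=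
  ∀ A, (∀ z, E z A → ∃ x, Codes E z x ∧ ∀ k, x k < 2) →
    (∃ g, (∀ w z z' t t', IsPair E t w z → IsPair E t' w z' → E t g → E t' g → z = z') ∧
      ∀ z, E z A → ∃ w t, E w F ∧ IsPair E t w z ∧ E t g) →
    InIdeal E A

/-- the goal -/
def Goal : Prop :=
  ∃ (N : Type 1) (E : N → N → Prop), ZFCModel E ∧ OmegaModel E ∧
    ∃ b : ℕ → ℕ, (∀ k, 1 ≤ b k) ∧ Summable (fun k => (1 : ℝ) / b k) ∧ InModel E b ∧
      ∃ F, UnboundedFamily E b F ∧ SmallerThanNonE E F

end Pool.Agent.H9.FC
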